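import Pool.Agent.Lib.MP_49fa77_co.H30.Iface

/-!
# GA: the Delaunay graph is connected

A closest pair between two parts of the set is a Gabriel edge, so a Delaunay edge.
-/

set_option autoImplicit false

namespace FT58.AS.H16

open Real MeasureTheory Set Metric Filter Relation FT58 FT58.AS

lemma norm_sq_eq (z : ℂ) : ‖z‖ ^ 2 = z.re ^ 2 + z.im ^ 2 := by
  rw [Complex.sq_norm, Complex.normSq_apply]; ring

lemma DD_norm (c q r : ℂ) :
    DD c q r = (‖c - r‖ ^ 2 + ‖q - r‖ ^ 2 - ‖c - q‖ ^ 2) / 2 := by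
  simp only [norm_sq_eq, DD, dt, Complex.sub_re, Complex.sub_im]; ring

lemma XX_left (c q : ℂ) : XX c q c = 0 := by
  simp only [XX, cr, Complex.sub_re, Complex.sub_im]; ring

lemma XX_right (c q : ℂ) : XX c q q = 0 := by
  simp only [XX, cr, Complex.sub_re, Complex.sub_im]; ring

/-- Gabriel edges are Delaunay edges. -/
lemma al_pos_of_DD {S : Finset ℂ} {c q : ℂ}
    (h : ∀ r ∈ S, r ≠ c → r ≠ q → 0 < DD c q r) : 0 < al S c q := by
  rw [lt_al_iff]
  refine ⟨by positivity, fun r hr hX => ?_⟩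
  have h1 : r ≠ c := by
    rintro rfl
    rw [XX_left] at hX
    exact lt_irrefl _ hX
  have h2 : r ≠ q := by
    rintro rfl
    rw [XX_right] at hX
    exact lt_irrefl _ hX
  have h3 := h r hr h1 h2
  unfold att
  rw [arctan_pos]
  exact div_pos h3 hX

/-- Gabriel edges are Delaunay edges. -/
lemma gabriel {S : Finset ℂ} {c q : ℂ}
    (h : ∀ r ∈ S, r ≠ c → r ≠ q → 0 < DD c q r) : Ed S c q := by
  have h1 := al_pos_of_DD h
  have h2 : 0 < al S q c := al_pos_of_DD (fun r hr hq hc => by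
    rw [DD_swap]; exact h r hr hc hq)
  unfold Ed
  linarith

theorem ga_st : GaS := by
  classical
  intro S A hx hy
  obtain ⟨x, hxS, hxA⟩ := hx
  obtain ⟨y, hyS, hyA⟩ := hy
  set P : Finset (ℂ × ℂ) := (S ×ˢ S).filter (fun p => A p.1 ∧ ¬ A p.2) with hP
  have hne : P.Nonempty := ⟨(x, y), by
    rw [hP, Finset.mem_filter, Finset.mem_product]
    exact ⟨⟨hxS, hyS⟩, hxA, hyA⟩⟩
  obtain ⟨⟨c, q⟩, hcq, hmin⟩ := Finset.exists_min_image P (fun p => ‖p.1 - p.2‖) hne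
  rw [hP, Finset.mem_filter, Finset.mem_product] at hcq
  obtain ⟨⟨hcS, hqS⟩, hcA, hqA⟩ := hcq
  have hmin' : ∀ a ∈ S, ∀ b ∈ S, A a → ¬ A b → ‖c - q‖ ≤ ‖a - b‖ := by
    intro a ha b hb hA hB
    exact hmin (a, b) (by
      rw [hP, Finset.mem_filter, Finset.mem_product]
      exact ⟨⟨ha, hb⟩, hA, hB⟩)
  simp only at hcS hqS hcA hqA
  refine ⟨c, hcS, q, hqS, hcA, hqA, ?_, ?_⟩
  · rintro rfl
    exact hqA hcA
  · apply gabriel
    intro r hr hrc hrq
    rw [DD_norm]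
    have h1 : 0 < ‖c - r‖ := norm_pos_iff.mpr (sub_ne_zero.mpr (Ne.symm hrc))
    have h2 : 0 < ‖q - r‖ := norm_pos_iff.mpr (sub_ne_zero.mpr (Ne.symm hrq))
    by_cases hrA : A r
    · have h3 := hmin' r hr q hqS hrA hqA
      rw [norm_sub_rev r q] at h3
      have h4 : ‖c - q‖ ^ 2 ≤ ‖q - r‖ ^ 2 := by
        apply pow_le_pow_left₀ (norm_nonneg _) h3
      have h5 : 0 < ‖c - r‖ ^ 2 := by positivity
      linarith
    · have h3 := hmin' c hcS r hr hcA hrA
      have h4 : ‖c - q‖ ^ 2 ≤ ‖c - r‖ ^ 2 := by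
        apply pow_le_pow_left₀ (norm_nonneg _) h3
      have h5 : 0 < ‖q - r‖ ^ 2 := by positivity
      linarith

end FT58.AS.H16
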